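import Pool.Agent.KS6_79.TT.Geo
import Pool.Agent.KS6_79.TT.Arith

/-!
# The conjectured numbers of tiles are wrong for almost all tiles with a 120-degree angle

Let `a, b, c` be pairwise coprime positive integers with `c² = a² + b² + a b`. The question is whether
an equilateral triangle tiles into `N` copies of the triangle with sides `a, b, c` exactly for
`N = m² a b`, `m ≥ M(a, b, c) = 3 ⌈(c² - a - b) / (a b)⌉`.

* Tilings. The sides `m a b` with `m ≥ 3 j` are possible as soon as `(j + 1) a b - c²` is a sum of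
  multiples of `a`, `b` and `c`. (The known tilings, and those of the library with a general tile,
  use multiples of `a` and `b` only. A layer with the long base `c² + n c` contains a parallelogram
  with sides `n c` and `b c`, inserted between two of its three big triangles.)
* The semigroup. Every `t` with `t² ≥ 12 c³` is a sum of multiples of `a`, `b`, `c`; this is much
  smaller than the bound `a b - a - b` for the multiples of `a` and `b`.
* Consequence. Let `q a b` be the least multiple of `a b` above `c²` and `t = q a b - c²`. If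
  `t² ≥ 12 c³` and `t + a + b < a b` then `M = 3 q` but all `m ≥ M - 3` are possible. So Q1 fails for
  almost all tiles: in every compact interval of ratios `b / a` without a point `x` with
  `x + 1 / x` an integer it fails for all but finitely many tiles, and there are infinitely
  many tiles in every interval.
-/

set_option autoImplicit false

namespace Pool.Agent.Results.MP_d0305a_co.AlmostAllTiles

open Set Pool.Agent.KS6_79.TT

/-- the closed triangle with vertices `A`, `B`, `C` in the Euclidean plane `ℂ` -/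
def tri (A B C : ℂ) : Set ℂ := convexHull ℝ {A, B, C}

/-- `N` triangles with sides `a, b, c` (reflections allowed) tile the triangle `P Q S`: their
union is `P Q S` and their interiors are pairwise disjoint -/
def TilesInto (a b c : ℝ) (P Q S : ℂ) (N : ℕ) : Prop :=
  ∃ A B C : Fin N → ℂ,
    (∀ i, dist (B i) (C i) = a ∧ dist (C i) (A i) = b ∧ dist (A i) (B i) = c) ∧
    (⋃ i, tri (A i) (B i) (C i)) = tri P Q S ∧
    ∀ i j, i ≠ j → Disjoint (interior (tri (A i) (B i) (C i))) (interior (tri (A j) (B j) (C j)))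

/-- an equilateral triangle of side `X` tiles into `N` copies of the triangle `(a, b, c)` -/
def EquilateralTiles (a b c : ℕ) (X : ℝ) (N : ℕ) : Prop :=
  ∃ P Q S : ℂ, dist P Q = X ∧ dist Q S = X ∧ dist S P = X ∧ TilesInto a b c P Q S N

/-- the numbers `N` for which some (non-degenerate) equilateral triangle tiles into `N` copies -/
def tileNumbers (a b c : ℕ) : Set ℕ := {N | ∃ X : ℝ, 0 < X ∧ EquilateralTiles a b c X N}

/-- `M(a,b,c) = 3⌈(c² - a - b)/(ab)⌉` -/
noncomputable def M (a b c : ℕ) : ℤ := 3 * ⌈((c : ℝ) ^ 2 - a - b) / (a * b)⌉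

/-- the set `{m² ab : m ∈ ℤ, m ≥ M(a,b,c)}` of Q1 -/
def claimedSet (a b c : ℕ) : Set ℕ := {N | ∃ m : ℤ, M a b c ≤ m ∧ (N : ℤ) = m ^ 2 * a * b}

/-- the tiles of the problem: pairwise coprime positive integers with `c² = a² + b² + ab` (so the
angle opposite `c` is `2π/3`) whose other two angles are not both rational multiples of `π` -/
structure IsTile (a b c : ℕ) : Prop where
  a_pos : 0 < a
  b_pos : 0 < b
  c_pos : 0 < c
  coprime_ab : Nat.Coprime a b
  coprime_ac : Nat.Coprime a c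
  coprime_bc : Nat.Coprime b c
  law : c ^ 2 = a ^ 2 + b ^ 2 + a * b
  incommensurable :
    ¬ ((∃ r : ℚ, Real.arccos (((b : ℝ) ^ 2 + c ^ 2 - a ^ 2) / (2 * b * c)) = r * Real.pi) ∧
      (∃ r : ℚ, Real.arccos (((a : ℝ) ^ 2 + c ^ 2 - b ^ 2) / (2 * a * c)) = r * Real.pi))

/-- All sides `m a b` with `m ≥ M - 3` are equiconstructible, with `m² a b` tiles; the numbers
`(M - 1)² a b`, `(M - 2)² a b` and `(M - 3)² a b` are attained but not in the set of Q1. -/
def Exceeds (a b c : ℕ) : Prop :=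
  (∀ m : ℕ, M a b c - 3 ≤ m → EquilateralTiles a b c (m * a * b : ℕ) (m ^ 2 * a * b)) ∧
    ∀ m : ℤ, M a b c - 3 ≤ m → m < M a b c →
      ∃ N ∈ tileNumbers a b c, (N : ℤ) = m ^ 2 * a * b ∧ N ∉ claimedSet a b c

/-! ### Transport to `ℂ` -/

open Q119.TL in
noncomputable def phiL : (ℝ × ℝ) ≃ₗ[ℝ] ℂ where
  toFun p := ⟨p.1 + p.2 / 2, p.2 * (Real.sqrt 3 / 2)⟩
  invFun z := (z.re - z.im / Real.sqrt 3, 2 * z.im / Real.sqrt 3)
  map_add' p q := by
    apply Complex.ext <;> simp <;> ring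
  map_smul' r p := by
    apply Complex.ext <;> simp <;> ring
  left_inv p := by
    have h3 : Real.sqrt 3 ≠ 0 := by positivity
    ext
    · simp only
      field_simp
      ring
    · simp only
      field_simp
  right_inv z := by
    have h3 : Real.sqrt 3 ≠ 0 := by positivity
    apply Complex.ext
    · simp only
      field_simp
      ring
    · simp only
      field_simp

lemma dist_phi (p q : ℝ × ℝ) (r : ℝ) (hr : 0 ≤ r) (h : Q119.TL.nf (p - q) = r ^ 2) :
    dist (phiL p) (phiL q) = r := by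
  rw [dist_eq_norm, ← map_sub]
  have h2 : ‖phiL (p - q)‖ ^ 2 = r ^ 2 := by
    rw [← h, Complex.sq_norm, Complex.normSq_apply]
    have h3 : Real.sqrt 3 * Real.sqrt 3 = 3 := Real.mul_self_sqrt (by norm_num)
    have : (phiL (p - q)).re = (p - q).1 + (p - q).2 / 2 := rfl
    rw [this]
    have : (phiL (p - q)).im = (p - q).2 * (Real.sqrt 3 / 2) := rfl
    rw [this]
    unfold Q119.TL.nf
    linear_combination ((p - q).2 ^ 2 / 4) * h3
  have := sq_eq_sq₀ (norm_nonneg (phiL (p - q))) hr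
  exact this.1 h2

lemma disjoint_interior_of_sep {S T : Set ℂ} (h : Q119.TL.Sep S T) :
    Disjoint (interior S) (interior T) := by
  obtain ⟨f, κ, hf, h1, h2⟩ := h
  rw [Set.disjoint_left]
  intro z hz1 hz2
  have hfz : f z = κ := le_antisymm (h1 z (interior_subset hz1)) (h2 z (interior_subset hz2))
  obtain ⟨v, hv⟩ : ∃ v, f v ≠ 0 := by
    by_contra hcon
    push Not at hcon
    exact hf (LinearMap.ext hcon)
  -- move in direction v
  have hcont : Filter.Tendsto (fun t : ℝ => z + t • v) (nhds 0) (nhds z) := by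
    have : Continuous (fun t : ℝ => z + t • v) := by fun_prop
    simpa using this.tendsto 0
  have hS : ∀ᶠ t in nhds (0 : ℝ), z + t • v ∈ interior S :=
    hcont.eventually (isOpen_interior.mem_nhds hz1)
  obtain ⟨ε, hε, hball⟩ := Metric.eventually_nhds_iff.1 hS
  have key : ∀ t : ℝ, |t| < ε → f z + t * f v ≤ κ := by
    intro t ht
    have := h1 _ (interior_subset (hball (by simpa [Real.dist_eq] using ht)))
    rw [map_add, map_smul, smul_eq_mul] at this
    exact this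
  have e1 := key (ε / 2) (by rw [abs_of_pos (by linarith)]; linarith)
  have e2 := key (-(ε / 2)) (by rw [abs_neg, abs_of_pos (by linarith)]; linarith)
  rw [hfz] at e1 e2
  apply hv
  have : ε / 2 * f v = 0 := by linarith
  rcases mul_eq_zero.1 this with h | h
  · linarith
  · exact h

lemma tri_region (L : ℝ) (hL : 0 ≤ L) :
    {p : ℝ × ℝ | 0 ≤ p.1 ∧ 0 ≤ p.2 ∧ p.1 + p.2 ≤ L} =
      Q119.TL.tri ((0, 0) : ℝ × ℝ) (L, 0) (0, L) := by
  ext ⟨x, y⟩
  rw [Q119.TL.mem_tri]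
  simp only [mem_ofPred_eq, Prod.smul_mk, Prod.mk_add_mk, Prod.mk.injEq, smul_eq_mul]
  constructor
  · rintro ⟨h1, h2, h3⟩
    rcases hL.eq_or_lt with h | h
    · refine ⟨1, 0, 0, by norm_num, le_rfl, le_rfl, by norm_num, ?_, ?_⟩ <;> rw [← h] <;> linarith
    · refine ⟨1 - x / L - y / L, x / L, y / L, ?_, by positivity, by positivity, by ring, ?_, ?_⟩
      · have : (x + y) / L ≤ 1 := by rw [div_le_one h]; exact h3
        rw [add_div] at this
        linarith
      · field_simp; ring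
      · field_simp; ring
  · rintro ⟨s, t, w, hs, ht, hw, h1, h2, h3⟩
    rw [h2, h3]
    refine ⟨by nlinarith, by nlinarith, ?_⟩
    have : (t + w) * L ≤ 1 * L := mul_le_mul_of_nonneg_right (by linarith) hL
    linarith

/-- the tilings in `ℝ × ℝ` with the form `x² + xy + y²` give tilings in `ℂ` -/
lemma transport (a b c : ℕ) (L : ℝ) (hL : 0 ≤ L) (N : ℕ)
    (h : Q119.TL.TR (Q119.TL.cpV a b c) {p | 0 ≤ p.1 ∧ 0 ≤ p.2 ∧ p.1 + p.2 ≤ L} N) :
    EquilateralTiles a b c L N := by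
  refine ⟨phiL (0, 0), phiL (L, 0), phiL (0, L), ?_, ?_, ?_, ?_⟩
  · apply dist_phi _ _ _ hL; simp [Q119.TL.nf]
  · apply dist_phi _ _ _ hL; simp [Q119.TL.nf]; ring
  · apply dist_phi _ _ _ hL; simp [Q119.TL.nf]
  · obtain ⟨ι, i1, A, B, C, hcard, hcp, hU, hsep⟩ := h
    let e : Fin N ≃ ι := (Fintype.equivFinOfCardEq hcard).symm
    have hmap : ∀ X Y Z : ℝ × ℝ, phiL '' Q119.TL.tri X Y Z = tri (phiL X) (phiL Y) (phiL Z) := by
      intro X Y Z
      exact Q119.TL.tri_map phiL.toAffineEquiv X Y Z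
    refine ⟨fun i => phiL (A (e i)), fun i => phiL (B (e i)), fun i => phiL (C (e i)), ?_, ?_, ?_⟩
    · intro i
      obtain ⟨h1, h2, h3⟩ := hcp (e i)
      exact ⟨dist_phi _ _ _ (by positivity) h1, dist_phi _ _ _ (by positivity) h2,
        dist_phi _ _ _ (by positivity) h3⟩
    · simp only [← hmap]
      rw [← image_iUnion, e.surjective.iUnion_comp (fun i => Q119.TL.tri (A i) (B i) (C i)), hU,
        tri_region L hL]
    · intro i j hij
      have h1 := (hsep (e i) (e j) (fun h => hij (e.injective h))).map phiL.toAffineEquiv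
      have h2 := disjoint_interior_of_sep h1
      simp only [← hmap]
      exact h2

/-! ### The tilings -/

lemma attained (a b c j n₁ n₂ n₃ m : ℕ) (ha : 0 < a) (hb : 0 < b)
    (hl : c ^ 2 = a ^ 2 + b ^ 2 + a * b)
    (hn : (j + 1) * (a * b) = c ^ 2 + n₁ * a + n₂ * b + n₃ * c) (hm : 3 * j ≤ m) :
    EquilateralTiles a b c (m * a * b : ℕ) (m ^ 2 * a * b) := by
  have hc : 0 < c := by
    rcases Nat.eq_zero_or_pos c with h | h
    · subst h
      have : 0 < a ^ 2 := by positivity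
      omega
    · exact h
  have hj : 1 ≤ j := by
    by_contra h
    have h0 : j = 0 := by omega
    subst h0
    have : 0 < a ^ 2 := by positivity
    have : 0 < b ^ 2 := by positivity
    have : (0 + 1) * (a * b) = a * b := by ring
    omega
  obtain ⟨N, h1, h2⟩ := equi3 a b c ha hb hc hl j hj n₁ n₂ n₃ (by rw [hn]; ring) m hm
  have hN : N = m ^ 2 * a * b := by
    have hab' : (a : ℝ) * b ≠ 0 := by positivity
    have h3 : (N : ℝ) = ((m ^ 2 * a * b : ℕ) : ℝ) := by
      apply mul_right_cancel₀ hab'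
      rw [h2]
      push_cast
      ring
    exact_mod_cast h3
  have h3 := transport a b c (m * ((a : ℝ) * b)) (by positivity) N h1
  rw [hN] at h3
  have e : ((m * a * b : ℕ) : ℝ) = m * ((a : ℝ) * b) := by push_cast; ring
  rw [e]
  exact h3

lemma three_ab (a b c q t : ℕ) (ha : 0 < a) (hb : 0 < b) (hl : c ^ 2 = a ^ 2 + b ^ 2 + a * b)
    (hq : q * (a * b) = c ^ 2 + t) : 3 ≤ q := by
  by_contra h
  have h2 : q ≤ 2 := by omega
  have h3 : q * (a * b) ≤ 2 * (a * b) := Nat.mul_le_mul_right _ h2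
  have h4 : 2 * (a * b) ≤ a ^ 2 + b ^ 2 := by nlinarith [sq_nonneg ((a : ℤ) - b)]
  have h5 : 0 < a * b := by positivity
  omega

/-- the criterion -/
lemma exceeds_of (a b c q t : ℕ) (ha : 0 < a) (hb : 0 < b) (hl : c ^ 2 = a ^ 2 + b ^ 2 + a * b)
    (hq : q * (a * b) = c ^ 2 + t) (ht : t + a + b < a * b)
    (hS : ∃ x y z : ℕ, t = x * a + y * b + z * c) : M a b c = 3 * q ∧ Exceeds a b c := by
  have ha' : (0 : ℝ) < a := by exact_mod_cast ha
  have hb' : (0 : ℝ) < b := by exact_mod_cast hb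
  have hab : (0 : ℝ) < a * b := by positivity
  have hq' : (q : ℝ) * (a * b) = c ^ 2 + t := by exact_mod_cast hq
  have ht' : (t : ℝ) + a + b < a * b := by exact_mod_cast ht
  have hM : M a b c = 3 * q := by
    have h1 : ⌈((c : ℝ) ^ 2 - a - b) / (a * b)⌉ = (q : ℤ) := by
      rw [Int.ceil_eq_iff]
      constructor
      · rw [lt_div_iff₀ hab]
        push_cast
        rw [sub_mul, hq']
        linarith
      · rw [div_le_iff₀ hab]
        push_cast
        rw [hq']
        have : (0 : ℝ) ≤ t := by positivity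
        linarith
    unfold M
    rw [h1]
  have hq3 := three_ab a b c q t ha hb hl hq
  obtain ⟨x, y, z, hxyz⟩ := hS
  obtain ⟨j, rfl⟩ : ∃ j, q = j + 1 := ⟨q - 1, by omega⟩
  have hall : ∀ m : ℕ, M a b c - 3 ≤ m →
      EquilateralTiles a b c (m * a * b : ℕ) (m ^ 2 * a * b) := by
    intro m hm
    rw [hM] at hm
    push_cast at hm
    exact attained a b c j x y z m ha hb hl (by rw [hq, hxyz]; ring) (by omega)
  refine ⟨hM, hall, ?_⟩
  intro m hm1 hm2
  have hm0 : 0 < m := by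
    rw [hM] at hm1
    push_cast at hm1
    omega
  obtain ⟨m', rfl⟩ : ∃ m' : ℕ, m = m' := ⟨m.toNat, (Int.toNat_of_nonneg hm0.le).symm⟩
  have hm0' : 0 < m' := by exact_mod_cast hm0
  refine ⟨m' ^ 2 * a * b, ⟨_, by positivity, hall m' hm1⟩, by push_cast; ring, ?_⟩
  rintro ⟨k, hk, he⟩
  push_cast at he
  have hab0 : (0 : ℤ) < a * b := by positivity
  have h1 : ((m' : ℤ)) ^ 2 = k ^ 2 := by
    apply mul_right_cancel₀ hab0.ne'
    linarith
  have h2 : (m' : ℤ) < k := lt_of_lt_of_le hm2 hk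
  nlinarith

lemma Exceeds.ne {a b c : ℕ} (h : Exceeds a b c) : tileNumbers a b c ≠ claimedSet a b c := by
  obtain ⟨N, hN, -, hN'⟩ := h.2 (M a b c - 1) (by linarith) (by linarith)
  intro he
  rw [he] at hN
  exact hN' hN

/-! ### The tiles -/

lemma c_bounds (a b c : ℕ) (ha : 0 < a) (hb : 0 < b) (hl : c ^ 2 = a ^ 2 + b ^ 2 + a * b) :
    b < c ∧ c < a + b ∧ a + 2 * b < 2 * c := by
  refine ⟨?_, ?_, ?_⟩
  · by_contra h
    push Not at h
    have : c ^ 2 ≤ b ^ 2 := Nat.pow_le_pow_left h 2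
    have : 0 < a ^ 2 := by positivity
    omega
  · by_contra h
    push Not at h
    have h1 : (a + b) ^ 2 ≤ c ^ 2 := Nat.pow_le_pow_left h 2
    have h2 : 0 < a * b := by positivity
    nlinarith
  · by_contra h
    push Not at h
    have h1 : (2 * c) ^ 2 ≤ (a + 2 * b) ^ 2 := Nat.pow_le_pow_left h 2
    have h2 : 0 < a * a := by positivity
    nlinarith

/-- the angles are incommensurable for all triples -/
lemma incomm (a b c : ℕ) (ha : 0 < a) (hb : 0 < b) (hl : c ^ 2 = a ^ 2 + b ^ 2 + a * b) :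
    ¬ ∃ r : ℚ, Real.arccos (((b : ℝ) ^ 2 + c ^ 2 - a ^ 2) / (2 * b * c)) = r * Real.pi := by
  intro h
  obtain ⟨h1, h2, h3⟩ := c_bounds a b c ha hb hl
  have ha' : (0 : ℝ) < a := by exact_mod_cast ha
  have hb' : (0 : ℝ) < b := by exact_mod_cast hb
  have hc' : (0 : ℝ) < c := by
    have : 0 < c := by omega
    exact_mod_cast this
  have hl' : (c : ℝ) ^ 2 = a ^ 2 + b ^ 2 + a * b := by exact_mod_cast hl
  have e : ((b : ℝ) ^ 2 + c ^ 2 - a ^ 2) / (2 * b * c) = (2 * b + a) / (2 * c) := by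
    rw [hl']
    field_simp
    ring
  rw [e] at h
  have h2' : (c : ℝ) < a + b := by exact_mod_cast h2
  have h3' : (a : ℝ) + 2 * b < 2 * c := by exact_mod_cast h3
  have hlo : (1 : ℝ) / 2 < (2 * b + a) / (2 * c) := by
    rw [lt_div_iff₀ (by positivity)]
    linarith
  have hhi : (2 * (b : ℝ) + a) / (2 * c) < 1 := by
    rw [div_lt_one (by positivity)]
    linarith
  have hcos : Real.cos (Real.arccos ((2 * b + a) / (2 * c))) = (2 * (b : ℝ) + a) / (2 * c) :=
    Real.cos_arccos (by linarith) (by linarith)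
  have := niven h ⟨(2 * b + a) / (2 * c), by rw [hcos]; push_cast; ring⟩
  rw [hcos] at this
  simp only [mem_insert_iff, mem_singleton_iff] at this
  rcases this with h | h | h | h | h <;> linarith

lemma isTile_of (a b c : ℕ) (ha : 0 < a) (hb : 0 < b) (hab : Nat.Coprime a b)
    (hl : c ^ 2 = a ^ 2 + b ^ 2 + a * b) : IsTile a b c where
  a_pos := ha
  b_pos := hb
  c_pos := by
    have := (c_bounds a b c ha hb hl).1
    omega
  coprime_ab := hab
  coprime_ac := by
    rw [Nat.coprime_iff_gcd_eq_one]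
    by_contra h
    obtain ⟨p, hp, hpd⟩ := Nat.exists_prime_and_dvd h
    have h1 : p ∣ a := hpd.trans (Nat.gcd_dvd_left _ _)
    have h2 : p ∣ c := hpd.trans (Nat.gcd_dvd_right _ _)
    have h3 : p ∣ a ^ 2 + b ^ 2 + a * b := by
      rw [← hl]; exact Dvd.dvd.pow h2 two_ne_zero
    have h4 : p ∣ a ^ 2 + a * b := dvd_add (Dvd.dvd.pow h1 two_ne_zero) (Dvd.dvd.mul_right h1 _)
    have h5 : p ∣ b ^ 2 := by
      have e : a ^ 2 + b ^ 2 + a * b = (a ^ 2 + a * b) + b ^ 2 := by ring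
      rw [e] at h3
      exact (Nat.dvd_add_right h4).1 h3
    exact Nat.not_coprime_of_dvd_of_dvd hp.one_lt h1 (hp.dvd_of_dvd_pow h5) hab
  coprime_bc := by
    rw [Nat.coprime_iff_gcd_eq_one]
    by_contra h
    obtain ⟨p, hp, hpd⟩ := Nat.exists_prime_and_dvd h
    have h1 : p ∣ b := hpd.trans (Nat.gcd_dvd_left _ _)
    have h2 : p ∣ c := hpd.trans (Nat.gcd_dvd_right _ _)
    have h3 : p ∣ a ^ 2 + b ^ 2 + a * b := by
      rw [← hl]; exact Dvd.dvd.pow h2 two_ne_zero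
    have h4 : p ∣ b ^ 2 + a * b := dvd_add (Dvd.dvd.pow h1 two_ne_zero) (Dvd.dvd.mul_left h1 _)
    have h5 : p ∣ a ^ 2 := by
      have e : a ^ 2 + b ^ 2 + a * b = (b ^ 2 + a * b) + a ^ 2 := by ring
      rw [e] at h3
      exact (Nat.dvd_add_right h4).1 h3
    exact Nat.not_coprime_of_dvd_of_dvd hp.one_lt (hp.dvd_of_dvd_pow h5) h1 hab
  law := hl
  incommensurable := fun h => incomm a b c ha hb hl h.1

/-- the tiles from the parametrisation -/
lemma isTile_param (m n : ℕ) (hn : 0 < n) (hnm : n < m) (hc : Nat.Coprime m n)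
    (h3 : ¬ 3 ∣ m - n) :
    IsTile ((m - n) * (m + n)) (n * (2 * m + n)) (m ^ 2 + m * n + n ^ 2) := by
  obtain ⟨d, rfl⟩ := Nat.exists_eq_add_of_lt hnm
  have e1 : n + d + 1 - n = d + 1 := by omega
  rw [e1] at h3 ⊢
  have hcd : Nat.Coprime (d + 1) n := by
    have : n + d + 1 = (d + 1) + n := by ring
    rw [this] at hc
    exact (Nat.coprime_add_self_left).1 hc
  apply isTile_of
  · positivity
  · positivity
  · have c1 : Nat.Coprime (n + d + 1 + n) n := by
      rw [Nat.coprime_add_self_left]; exact hc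
    have c2 : Nat.Coprime (d + 1) (2 * (n + d + 1) + n) := by
      have e : 2 * (n + d + 1) + n = 3 * n + (d + 1) * 2 := by ring
      rw [e, Nat.coprime_add_mul_left_right]
      apply Nat.Coprime.mul_right _ hcd
      exact ((Nat.Prime.coprime_iff_not_dvd Nat.prime_three).2 h3).symm
    have c3 : Nat.Coprime (n + d + 1 + n) (2 * (n + d + 1) + n) := by
      have e : 2 * (n + d + 1) + n = (n + d + 1) + (n + d + 1 + n) * 1 := by ring
      rw [e, Nat.coprime_add_mul_left_right, Nat.coprime_comm, Nat.coprime_self_add_right]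
      exact hc
    exact Nat.Coprime.mul_left (Nat.Coprime.mul_right hcd c2) (Nat.Coprime.mul_right c1 c3)
  · ring

/-! ### Almost all tiles -/

/-- the ratio of `c²` and `a b` -/
lemma ratio (a b c : ℕ) (ha : 0 < a) (hb : 0 < b) (hl : c ^ 2 = a ^ 2 + b ^ 2 + a * b) :
    (c : ℝ) ^ 2 = ((b : ℝ) / a + 1 / ((b : ℝ) / a) + 1) * (a * b) := by
  have ha' : (0 : ℝ) < a := by exact_mod_cast ha
  have hb' : (0 : ℝ) < b := by exact_mod_cast hb
  have hl' : (c : ℝ) ^ 2 = a ^ 2 + b ^ 2 + a * b := by exact_mod_cast hl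
  rw [hl']
  field_simp
  ring

/-- a uniform version of the criterion -/
lemma exceeds_of_ratio (k : ℤ) (α β : ℝ) (hα : (k : ℝ) - 1 < α) (hβ : β < k) (hαβ : α ≤ β) :
    ∃ K : ℕ, ∀ a b c : ℕ, IsTile a b c → K ≤ c →
      α ≤ (b : ℝ) / a + 1 / ((b : ℝ) / a) + 1 → (b : ℝ) / a + 1 / ((b : ℝ) / a) + 1 ≤ β →
      Exceeds a b c := by
  obtain ⟨ε, hε⟩ : ∃ ε : ℝ, ε = k - β := ⟨_, rfl⟩
  obtain ⟨δ, hδ⟩ : ∃ δ : ℝ, δ = α - (k - 1) := ⟨_, rfl⟩
  have hε0 : 0 < ε := by rw [hε]; linarith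
  have hδ0 : 0 < δ := by rw [hδ]; linarith
  obtain ⟨K, hK⟩ := exists_nat_ge (max (12 * β ^ 2 / ε ^ 2) (2 * β / δ + 1))
  refine ⟨max K 1, ?_⟩
  intro a b c hT hKc h1 h2
  obtain ⟨f, hf⟩ : ∃ f : ℝ, f = (b : ℝ) / a + 1 / ((b : ℝ) / a) + 1 := ⟨_, rfl⟩
  rw [← hf] at h1 h2
  have ha := hT.a_pos
  have hb := hT.b_pos
  have hl := hT.law
  have ha' : (0 : ℝ) < a := by exact_mod_cast ha
  have hb' : (0 : ℝ) < b := by exact_mod_cast hb
  have hc' : (0 : ℝ) < c := by exact_mod_cast hT.c_pos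
  have hr := ratio a b c ha hb hl
  rw [← hf] at hr
  have hf0 : 0 < f := by rw [hf]; positivity
  have hβ0 : 0 < β := lt_of_lt_of_le hf0 h2
  have hab : (0 : ℝ) < a * b := by positivity
  have hcK : max (12 * β ^ 2 / ε ^ 2) (2 * β / δ + 1) ≤ c := by
    refine hK.trans ?_
    exact_mod_cast (le_max_left _ _).trans hKc
  have hc1 : 12 * β ^ 2 / ε ^ 2 ≤ c := (le_max_left _ _).trans hcK
  have hc2 : 2 * β / δ + 1 ≤ c := (le_max_right _ _).trans hcK
  -- `k` is positive
  have hk0 : 0 < k := by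
    have : (0 : ℝ) < k := by linarith
    exact_mod_cast this
  obtain ⟨q, hq⟩ : ∃ q : ℕ, (q : ℤ) = k := ⟨k.toNat, Int.toNat_of_nonneg hk0.le⟩
  have hqr : (q : ℝ) = k := by exact_mod_cast hq
  -- the number `t`
  have hle : (c : ℝ) ^ 2 + ε * (a * b) ≤ q * (a * b) := by
    rw [hr, hqr, hε]
    have : f * ((a : ℝ) * b) ≤ β * (a * b) := mul_le_mul_of_nonneg_right h2 hab.le
    linarith [this, show ((k : ℝ) - β) * (a * b) = k * (a * b) - β * (a * b) by ring]
  have hle' : c ^ 2 ≤ q * (a * b) := by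
    have : (c : ℝ) ^ 2 ≤ q * (a * b) := by
      have : 0 ≤ ε * ((a : ℝ) * b) := by positivity
      linarith
    exact_mod_cast this
  obtain ⟨t, ht⟩ := Nat.exists_eq_add_of_le hle'
  have htr : (q : ℝ) * (a * b) = c ^ 2 + t := by exact_mod_cast ht
  have ht1 : ε * (a * b) ≤ t := by linarith
  have hcab : (c : ℝ) ^ 2 ≤ β * (a * b) := by
    rw [hr]; exact mul_le_mul_of_nonneg_right h2 hab.le
  have hbd := c_bounds a b c ha hb hl
  have hbd2 := c_bounds b a c hb ha (by rw [hl]; ring)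
  have hbc : (b : ℝ) < c := by exact_mod_cast hbd.1
  have hac : (a : ℝ) < c := by exact_mod_cast hbd2.1
  refine (exceeds_of a b c q t ha hb hl ht ?_ ?_).2
  · -- `t + a + b < a b`
    have h3 : δ * (a * b) ≤ a * b - t := by
      have h4 : (t : ℝ) = k * (a * b) - f * (a * b) := by rw [← hqr]; linarith
      rw [h4, hδ]
      have : α * ((a : ℝ) * b) ≤ f * (a * b) := mul_le_mul_of_nonneg_right h1 hab.le
      linarith [this, show (α - ((k : ℝ) - 1)) * (a * b) = α * (a * b) - k * (a * b) + a * b by ring]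
    have h5 : 2 * (c : ℝ) < δ * (a * b) := by
      have h6 : 2 * β / δ < c := by linarith
      rw [div_lt_iff₀ hδ0] at h6
      have h7 : 2 * β * c < c * δ * c := mul_lt_mul_of_pos_right h6 hc'
      have h8 : c * δ * c ≤ δ * (β * (a * b)) := by
        calc (c : ℝ) * δ * c = δ * c ^ 2 := by ring
          _ ≤ δ * (β * (a * b)) := mul_le_mul_of_nonneg_left hcab hδ0.le
      have h9 : β * (2 * c) < β * (δ * (a * b)) := by
        calc β * (2 * c) = 2 * β * c := by ring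
          _ < c * δ * c := h7
          _ ≤ δ * (β * (a * b)) := h8
          _ = β * (δ * (a * b)) := by ring
      exact lt_of_mul_lt_mul_left h9 hβ0.le
    have : (t : ℝ) + a + b < a * b := by linarith
    exact_mod_cast this
  · -- `t` is in the semigroup
    apply mem_of_large a b c ha hb hT.coprime_ab hl
    have h3 : 12 * (c : ℝ) ^ 3 ≤ (t : ℝ) ^ 2 := by
      have h4 : (ε * (a * b)) ^ 2 ≤ (t : ℝ) ^ 2 := by gcongr
      refine le_trans ?_ h4
      rw [div_le_iff₀ (by positivity)] at hc1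
      have h5 : (c : ℝ) ^ 4 ≤ β ^ 2 * (a * b) ^ 2 := by
        have : ((c : ℝ) ^ 2) ^ 2 ≤ (β * (a * b)) ^ 2 := by gcongr
        calc (c : ℝ) ^ 4 = ((c : ℝ) ^ 2) ^ 2 := by ring
          _ ≤ (β * (a * b)) ^ 2 := this
          _ = _ := by ring
      have h6 : β ^ 2 * (12 * (c : ℝ) ^ 3) ≤ β ^ 2 * (ε * (a * b)) ^ 2 := by
        calc β ^ 2 * (12 * (c : ℝ) ^ 3) = 12 * β ^ 2 * c ^ 3 := by ring
          _ ≤ c * ε ^ 2 * c ^ 3 := by gcongr
          _ = ε ^ 2 * c ^ 4 := by ring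
          _ ≤ ε ^ 2 * (β ^ 2 * (a * b) ^ 2) := by gcongr
          _ = _ := by ring
      exact le_of_mul_le_mul_left h6 (by positivity)
    exact_mod_cast h3

/-- The assertion of Q1 fails for all but finitely many tiles with `b / a` in a compact interval
which contains no `x` with `x + 1 / x` an integer. -/
lemma almost_all (u v : ℝ) (hu : 0 < u) (huv : u ≤ v)
    (h : ∀ x ∈ Icc u v, ∀ k : ℤ, x + 1 / x ≠ k) :
    ∃ K : ℕ, ∀ a b c : ℕ, IsTile a b c → u ≤ (b : ℝ) / a → (b : ℝ) / a ≤ v → K ≤ c →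
      Exceeds a b c := by
  obtain ⟨f, hf⟩ : ∃ f : ℝ → ℝ, f = fun x => x + 1 / x + 1 := ⟨_, rfl⟩
  have hcont : ContinuousOn f (Icc u v) := by
    rw [hf]
    apply ContinuousOn.add (ContinuousOn.add continuousOn_id _) continuousOn_const
    apply ContinuousOn.div continuousOn_const continuousOn_id
    intro x hx
    exact (lt_of_lt_of_le hu hx.1).ne'
  have hne : (Icc u v).Nonempty := ⟨u, le_rfl, huv⟩
  obtain ⟨x1, hx1, hmin⟩ := isCompact_Icc.exists_isMinOn hne hcont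
  obtain ⟨x2, hx2, hmax⟩ := isCompact_Icc.exists_isMaxOn hne hcont
  have hnot : ∀ x ∈ Icc u v, ∀ k : ℤ, f x ≠ k := by
    intro x hx k hk
    apply h x hx (k - 1)
    have : f x = x + 1 / x + 1 := by rw [hf]
    rw [this] at hk
    push_cast
    linarith
  obtain ⟨k, hk⟩ : ∃ k : ℤ, k = ⌊f x1⌋ + 1 := ⟨_, rfl⟩
  have h1 : (k : ℝ) - 1 < f x1 := by
    have e : (k : ℝ) - 1 = (⌊f x1⌋ : ℝ) := by rw [hk]; push_cast; ring
    rw [e]
    exact lt_of_le_of_ne (Int.floor_le _) (fun h => hnot x1 hx1 _ h.symm)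
  have h2 : f x1 < k := by
    rw [hk]
    push_cast
    exact Int.lt_floor_add_one _
  have h3 : f x2 < k := by
    by_contra hcon
    push Not at hcon
    have hpre : IsPreconnected (f '' Icc u v) := isPreconnected_Icc.image f hcont
    have := hpre.Icc_subset (mem_image_of_mem f hx1) (mem_image_of_mem f hx2)
      (⟨h2.le, hcon⟩ : (k : ℝ) ∈ Icc (f x1) (f x2))
    obtain ⟨x, hx, hxk⟩ := this
    exact hnot x hx k hxk
  obtain ⟨K, hK⟩ := exceeds_of_ratio k (f x1) (f x2) h1 h3 (hmin hx2)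
  refine ⟨K, ?_⟩
  intro a b c hT hu' hv' hKc
  have e : (b : ℝ) / a + 1 / ((b : ℝ) / a) + 1 = f ((b : ℝ) / a) := by rw [hf]
  exact hK a b c hT hKc (by rw [e]; exact hmin ⟨hu', hv'⟩) (by rw [e]; exact hmax ⟨hu', hv'⟩)

/-! ### There are tiles of almost every shape -/

/-- the shape of the tile with the parameters `m`, `n`, `x = n / m` -/
noncomputable def phi (x : ℝ) : ℝ := (2 * x + x ^ 2) / (1 - x ^ 2)

lemma exists_phi (w : ℝ) (hw : 0 < w) : ∃ x : ℝ, 0 < x ∧ x < 1 ∧ phi x = w := by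
  obtain ⟨s, hs⟩ : ∃ s : ℝ, s = Real.sqrt (1 + w + w ^ 2) := ⟨_, rfl⟩
  have hs2 : s ^ 2 = 1 + w + w ^ 2 := by rw [hs]; exact Real.sq_sqrt (by positivity)
  have hs0 : 0 ≤ s := by rw [hs]; exact Real.sqrt_nonneg _
  have hs1 : 1 < s := by
    by_contra h
    push Not at h
    nlinarith
  have hs3 : s < 2 + w := by
    by_contra h
    push Not at h
    nlinarith
  have hw1 : 0 < 1 + w := by linarith
  refine ⟨(s - 1) / (1 + w), div_pos (by linarith) hw1, ?_, ?_⟩
  · rw [div_lt_one hw1]; linarith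
  · obtain ⟨x, hx⟩ : ∃ x : ℝ, x = (s - 1) / (1 + w) := ⟨_, rfl⟩
    rw [← hx]
    have e1 : (1 + w) * x = s - 1 := by rw [hx]; field_simp
    have hx0 : 0 < x := by rw [hx]; exact div_pos (by linarith) hw1
    have hx1 : x < 1 := by rw [hx, div_lt_one hw1]; linarith
    have h1 : 0 < 1 - x ^ 2 := by nlinarith
    unfold phi
    rw [div_eq_iff h1.ne']
    apply mul_left_cancel₀ hw1.ne'
    have e2 : (1 + w) * (2 * x + x ^ 2) - (1 + w) * (w * (1 - x ^ 2)) =
        (2 + x + w * x) * ((1 + w) * x) - (1 + w) * w := by ring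
    have e3 : (2 + x + w * x) = 2 + (1 + w) * x := by ring
    rw [e3, e1] at e2
    have e4 : (2 + (s - 1)) * (s - 1) - (1 + w) * w = s ^ 2 - 1 - (1 + w) * w := by ring
    rw [e4, hs2] at e2
    linarith

lemma many_tiles (u v : ℝ) (hu : 0 ≤ u) (huv : u < v) (K : ℕ) :
    ∃ a b c : ℕ, IsTile a b c ∧ u < (b : ℝ) / a ∧ (b : ℝ) / a < v ∧ K ≤ c := by
  obtain ⟨x0, hx0, hx1, hphi⟩ := exists_phi ((u + v) / 2) (by linarith)
  have h1 : 0 < 1 - x0 ^ 2 := by nlinarith
  have hcont : ContinuousAt phi x0 := by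
    unfold phi
    exact ContinuousAt.div (f := fun x : ℝ => 2 * x + x ^ 2) (g := fun x : ℝ => 1 - x ^ 2)
      (by fun_prop) (by fun_prop) h1.ne'
  have hev : ∀ᶠ x in nhds x0, u < phi x ∧ phi x < v := by
    have h2 : phi x0 ∈ Ioo u v := by rw [hphi]; constructor <;> linarith
    have h3 := hcont.eventually (isOpen_Ioo.mem_nhds h2)
    exact h3.mono fun x hx => ⟨hx.1, hx.2⟩
  obtain ⟨δ, hδ, hball⟩ := Metric.eventually_nhds_iff.1 hev
  obtain ⟨N, hN⟩ := exists_nat_gt (max (1 / δ) (max (1 / x0) (2 / (1 - x0))))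
  obtain ⟨m, hmN, hm⟩ := Nat.exists_infinite_primes (max N K)
  have hmN' : N ≤ m := (le_max_left _ _).trans hmN
  have hmK : K ≤ m := (le_max_right _ _).trans hmN
  have hNm : (N : ℝ) ≤ m := by exact_mod_cast hmN'
  have hm0 : (0 : ℝ) < m := by exact_mod_cast hm.pos
  have b1 : 1 / δ < m := lt_of_le_of_lt (le_max_left _ _) (lt_of_lt_of_le hN hNm)
  have b2 : 1 / x0 < m := lt_of_le_of_lt ((le_max_left _ _).trans (le_max_right _ _))
    (lt_of_lt_of_le hN hNm)
  have b3 : 2 / (1 - x0) < m := lt_of_le_of_lt ((le_max_right _ _).trans (le_max_right _ _))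
    (lt_of_lt_of_le hN hNm)
  rw [div_lt_iff₀ hδ] at b1
  rw [div_lt_iff₀ hx0] at b2
  rw [div_lt_iff₀ (by linarith)] at b3
  obtain ⟨n0, hn0⟩ : ∃ n0 : ℕ, n0 = ⌊x0 * m⌋₊ := ⟨_, rfl⟩
  have c1 : (n0 : ℝ) ≤ x0 * m := by rw [hn0]; exact Nat.floor_le (by positivity)
  have c2 : x0 * m < n0 + 1 := by rw [hn0]; exact Nat.lt_floor_add_one _
  have c3 : 1 ≤ n0 := by
    rw [hn0]
    apply Nat.le_floor
    push_cast
    linarith
  have c4 : n0 + 1 < m := by
    have : (n0 : ℝ) + 1 < m := by nlinarith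
    exact_mod_cast this
  -- choose `n`
  obtain ⟨n, hn1, hn2, hn3⟩ : ∃ n : ℕ, n0 ≤ n ∧ n ≤ n0 + 1 ∧ ¬ 3 ∣ m - n := by
    by_cases h : 3 ∣ m - n0
    · refine ⟨n0 + 1, by omega, le_rfl, ?_⟩
      omega
    · exact ⟨n0, le_rfl, by omega, h⟩
  have hn0' : 0 < n := by omega
  have hnm : n < m := by omega
  have hcop : Nat.Coprime m n := by
    rw [hm.coprime_iff_not_dvd]
    intro hd
    exact absurd (Nat.le_of_dvd hn0' hd) (by omega)
  have hT := isTile_param m n hn0' hnm hcop hn3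
  refine ⟨_, _, _, hT, ?_⟩
  have hn1r : (n0 : ℝ) ≤ n := by exact_mod_cast hn1
  have hn2r : (n : ℝ) ≤ n0 + 1 := by exact_mod_cast hn2
  have hclose : dist ((n : ℝ) / m) x0 < δ := by
    rw [Real.dist_eq, abs_lt]
    have e : (n : ℝ) / m - x0 = (n - x0 * m) / m := by field_simp
    rw [e]
    constructor
    · rw [lt_div_iff₀ hm0]; linarith
    · rw [div_lt_iff₀ hm0]; linarith
  have hb := hball hclose
  have e : ((n * (2 * m + n) : ℕ) : ℝ) / (((m - n) * (m + n) : ℕ) : ℝ) = phi ((n : ℝ) / m) := by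
    have hnm' : (n : ℝ) < m := by exact_mod_cast hnm
    have hn0r : (0 : ℝ) < n := by exact_mod_cast hn0'
    unfold phi
    push_cast [Nat.cast_sub hnm.le]
    have e1 : (m : ℝ) - n ≠ 0 := by linarith
    have e2 : (m : ℝ) + n ≠ 0 := by positivity
    have e3 : 1 - ((n : ℝ) / m) ^ 2 = (m - n) * (m + n) / m ^ 2 := by field_simp; ring
    have e4 : 2 * ((n : ℝ) / m) + ((n : ℝ) / m) ^ 2 = n * (2 * m + n) / m ^ 2 := by
      field_simp
    rw [e3, e4]
    field_simp
  rw [e]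
  refine ⟨hb.1, hb.2, ?_⟩
  nlinarith [hm.pos]

lemma rational_not_int (w : ℚ) (h0 : 0 < w) (h1 : w ≠ 1) (k : ℤ) : (w : ℝ) + 1 / (w : ℝ) ≠ k := by
  intro h
  have hw : w + 1 / w = k := by exact_mod_cast h
  have hd : (w.den : ℚ) ≠ 0 := by exact_mod_cast w.den_nz
  have hn : (0 : ℤ) < w.num := Rat.num_pos.2 h0
  have hn' : (w.num : ℚ) ≠ 0 := by exact_mod_cast hn.ne'
  have e : (w.num : ℚ) ^ 2 + (w.den : ℚ) ^ 2 = k * w.num * w.den := by
    have hw2 : w = w.num / w.den := (Rat.num_div_den w).symm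
    rw [hw2] at hw
    field_simp at hw
    linarith
  have e' : (w.num : ℤ) ^ 2 + (w.den : ℤ) ^ 2 = k * w.num * w.den := by exact_mod_cast e
  have hcop : IsCoprime w.num (w.den : ℤ) := by
    rw [Int.isCoprime_iff_gcd_eq_one]
    have := w.reduced
    rw [Nat.coprime_iff_gcd_eq_one] at this
    simpa [Int.gcd] using this
  have d1 : w.num ∣ (w.den : ℤ) ^ 2 := ⟨k * w.den - w.num, by linarith⟩
  have d2 : (w.den : ℤ) ∣ w.num ^ 2 := ⟨k * w.num - w.den, by linarith⟩
  have u1 : IsUnit w.num := (hcop.pow_right (n := 2)).isUnit_of_dvd' dvd_rfl d1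
  have u2 : IsUnit (w.den : ℤ) := (hcop.symm.pow_right (n := 2)).isUnit_of_dvd' dvd_rfl d2
  have n1 : w.num = 1 := by
    rcases Int.isUnit_iff.1 u1 with h | h
    · exact h
    · omega
  have n2 : (w.den : ℤ) = 1 := by
    rcases Int.isUnit_iff.1 u2 with h | h
    · exact h
    · omega
  have n2' : w.den = 1 := by exact_mod_cast n2
  apply h1
  rw [← Rat.num_div_den w, n1, n2']
  norm_num

/-- In every interval there are ratios of infinitely many tiles for which Q1 fails. -/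
lemma many_exceed (u v : ℝ) (hu : 0 ≤ u) (huv : u < v) (K : ℕ) :
    ∃ a b c : ℕ, IsTile a b c ∧ u < (b : ℝ) / a ∧ (b : ℝ) / a < v ∧ K ≤ c ∧ Exceeds a b c := by
  -- a rational point
  obtain ⟨w, hw1, hw2, hw3⟩ : ∃ w : ℚ, u < w ∧ (w : ℝ) < v ∧ w ≠ 1 := by
    obtain ⟨w, h1, h2⟩ := exists_rat_btwn huv
    by_cases h : w = 1
    · obtain ⟨w', h3, h4⟩ := exists_rat_btwn h1
      refine ⟨w', h3, h4.trans h2, ?_⟩
      rintro rfl
      rw [h] at h4
      exact lt_irrefl _ h4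
    · exact ⟨w, h1, h2, h⟩
  have hw0 : (0 : ℝ) < w := lt_of_le_of_lt hu hw1
  have hw0' : 0 < w := by exact_mod_cast hw0
  obtain ⟨f, hf⟩ : ∃ f : ℝ → ℝ, f = fun x => x + 1 / x + 1 := ⟨_, rfl⟩
  have hcont : ContinuousAt f (w : ℝ) := by
    rw [hf]
    apply ContinuousAt.add (ContinuousAt.add continuousAt_id _) continuousAt_const
    exact ContinuousAt.div continuousAt_const continuousAt_id hw0.ne'
  have hnot : ∀ k : ℤ, f w ≠ k := by
    intro k hk
    apply rational_not_int w hw0' hw3 (k - 1)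
    have : f (w : ℝ) = w + 1 / (w : ℝ) + 1 := by rw [hf]
    rw [this] at hk
    push_cast
    linarith
  obtain ⟨k, hk⟩ : ∃ k : ℤ, k = ⌊f w⌋ + 1 := ⟨_, rfl⟩
  have h1 : (k : ℝ) - 1 < f w := by
    have e : (k : ℝ) - 1 = (⌊f w⌋ : ℝ) := by rw [hk]; push_cast; ring
    rw [e]
    exact lt_of_le_of_ne (Int.floor_le _) (fun h => hnot _ h.symm)
  have h2 : f w < k := by
    rw [hk]
    push_cast
    exact Int.lt_floor_add_one _
  obtain ⟨α, hα1, hα2⟩ := exists_between h1
  obtain ⟨β, hβ1, hβ2⟩ := exists_between h2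
  obtain ⟨K', hK'⟩ := exceeds_of_ratio k α β hα1 hβ2 (by linarith)
  have hev : ∀ᶠ x in nhds (w : ℝ), (α < f x ∧ f x < β) ∧ (u < x ∧ x < v) := by
    have h3 := hcont.eventually (isOpen_Ioo.mem_nhds (⟨hα2, hβ1⟩ : f w ∈ Ioo α β))
    have h4 := isOpen_Ioo.mem_nhds (⟨hw1, hw2⟩ : (w : ℝ) ∈ Ioo u v)
    filter_upwards [h3, h4] with x hx hx'
    exact ⟨hx, hx'⟩
  obtain ⟨δ, hδ, hball⟩ := Metric.eventually_nhds_iff.1 hev
  obtain ⟨a, b, c, hT, r1, r2, hKc⟩ := many_tiles (max 0 (w - δ)) (w + δ) (le_max_left _ _)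
    (by rw [max_lt_iff]; constructor <;> linarith) (max K K')
  have hd : dist ((b : ℝ) / a) w < δ := by
    rw [Real.dist_eq, abs_lt]
    constructor
    · have := (le_max_right 0 ((w : ℝ) - δ)).trans_lt r1
      linarith
    · linarith
  obtain ⟨⟨h3, h4⟩, h5, h6⟩ := hball hd
  have e : (b : ℝ) / a + 1 / ((b : ℝ) / a) + 1 = f ((b : ℝ) / a) := by rw [hf]
  exact ⟨a, b, c, hT, h5, h6, (le_max_left _ _).trans hKc,
    hK' a b c hT ((le_max_right _ _).trans hKc) (by rw [e]; exact h3.le) (by rw [e]; exact h4.le)⟩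

/-- (1) If `(j + 1) a b - c²` is a sum of multiples of `a`, `b`, `c` then the equilateral triangles of
side `m a b`, `m ≥ 3 j`, tile into `m² a b` copies of the tile. (2) For every tile every `t` with
`t² ≥ 12 c³` is such a sum. (3) If `q a b = c² + t`, `t + a + b < a b` and `t` is such a sum, in
particular if `t² ≥ 12 c³`, then `M = 3 q` and all `m ≥ M - 3` are attained. (4) In every compact
interval of ratios `b / a` which contains no `x` with `x + 1 / x` an integer this is so for all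
but finitely many tiles. (5) In every interval of ratios it is so for infinitely many tiles.
(6) Examples: `(5, 16, 19)`, `(11, 24, 31)`, `(32, 45, 67)`. (7) When `m ≥ M - 3` are all attained
the set of the numbers of tiles is not the set of Q1. So Q1 is false. -/
theorem result :
    (∀ a b c j n₁ n₂ n₃ m : ℕ, 0 < a → 0 < b → c ^ 2 = a ^ 2 + b ^ 2 + a * b →
      (j + 1) * (a * b) = c ^ 2 + n₁ * a + n₂ * b + n₃ * c → 3 * j ≤ m →
      EquilateralTiles a b c (m * a * b : ℕ) (m ^ 2 * a * b)) ∧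
    (∀ a b c t : ℕ, IsTile a b c → 12 * c ^ 3 ≤ t ^ 2 →
      ∃ n₁ n₂ n₃ : ℕ, t = n₁ * a + n₂ * b + n₃ * c) ∧
    (∀ a b c q t : ℕ, IsTile a b c → q * (a * b) = c ^ 2 + t → t + a + b < a * b →
      ((∃ n₁ n₂ n₃ : ℕ, t = n₁ * a + n₂ * b + n₃ * c) ∨ 12 * c ^ 3 ≤ t ^ 2) →
      M a b c = 3 * q ∧ Exceeds a b c) ∧
    (∀ u v : ℝ, 0 < u → u ≤ v → (∀ x ∈ Icc u v, ∀ k : ℤ, x + 1 / x ≠ k) →
      {p : ℕ × ℕ × ℕ | IsTile p.1 p.2.1 p.2.2 ∧ u ≤ (p.2.1 : ℝ) / p.1 ∧ (p.2.1 : ℝ) / p.1 ≤ v ∧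
        ¬ Exceeds p.1 p.2.1 p.2.2}.Finite) ∧
    (∀ u v : ℝ, 0 ≤ u → u < v →
      {p : ℕ × ℕ × ℕ | IsTile p.1 p.2.1 p.2.2 ∧ u < (p.2.1 : ℝ) / p.1 ∧ (p.2.1 : ℝ) / p.1 < v ∧
        Exceeds p.1 p.2.1 p.2.2}.Infinite) ∧
    (IsTile 5 16 19 ∧ M 5 16 19 = 15 ∧ Exceeds 5 16 19 ∧
      IsTile 11 24 31 ∧ M 11 24 31 = 12 ∧ Exceeds 11 24 31 ∧
      IsTile 32 45 67 ∧ M 32 45 67 = 12 ∧ Exceeds 32 45 67) ∧
    (∀ a b c : ℕ, Exceeds a b c → tileNumbers a b c ≠ claimedSet a b c) ∧
    ¬ ∀ a b c : ℕ, IsTile a b c → tileNumbers a b c = claimedSet a b c := by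
  have hex : ∀ a b c q t : ℕ, 0 < a → 0 < b → Nat.Coprime a b → c ^ 2 = a ^ 2 + b ^ 2 + a * b →
      q * (a * b) = c ^ 2 + t → t + a + b < a * b →
      (∃ n₁ n₂ n₃ : ℕ, t = n₁ * a + n₂ * b + n₃ * c) →
      IsTile a b c ∧ M a b c = 3 * q ∧ Exceeds a b c := by
    intro a b c q t h1 h2 h3 h4 h5 h6 h7
    exact ⟨isTile_of a b c h1 h2 h3 h4, exceeds_of a b c q t h1 h2 h4 h5 h6 h7⟩
  have x1 := hex 5 16 19 5 39 (by norm_num) (by norm_num) (by norm_num) (by norm_num)
    (by norm_num) (by norm_num) ⟨4, 0, 1, by norm_num⟩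
  have x2 := hex 11 24 31 4 95 (by norm_num) (by norm_num) (by norm_num) (by norm_num)
    (by norm_num) (by norm_num) ⟨3, 0, 2, by norm_num⟩
  have x3 := hex 32 45 67 4 1271 (by norm_num) (by norm_num) (by norm_num) (by norm_num)
    (by norm_num) (by norm_num) ⟨13, 19, 0, by norm_num⟩
  refine ⟨fun a b c j n₁ n₂ n₃ m => attained a b c j n₁ n₂ n₃ m, ?_, ?_, ?_, ?_,
    ⟨x1.1, x1.2.1, x1.2.2, x2.1, x2.2.1, x2.2.2, x3.1, x3.2.1, x3.2.2⟩,
    fun a b c h => h.ne, fun h => x1.2.2.ne (h 5 16 19 x1.1)⟩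
  · intro a b c t hT ht
    exact mem_of_large a b c hT.a_pos hT.b_pos hT.coprime_ab hT.law t ht
  · intro a b c q t hT hq ht hS
    refine exceeds_of a b c q t hT.a_pos hT.b_pos hT.law hq ht ?_
    rcases hS with hS | hS
    · exact hS
    · exact mem_of_large a b c hT.a_pos hT.b_pos hT.coprime_ab hT.law t hS
  · intro u v hu huv h
    obtain ⟨K, hK⟩ := almost_all u v hu huv h
    apply Set.Finite.subset
      ((Set.finite_Iio K).prod ((Set.finite_Iio K).prod (Set.finite_Iio K)))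
    rintro ⟨a, b, c⟩ ⟨hT, h1, h2, h3⟩
    simp only at hT h1 h2 h3
    have hc : c < K := by
      by_contra hcon
      push Not at hcon
      exact h3 (hK a b c hT h1 h2 hcon)
    have hb := (c_bounds a b c hT.a_pos hT.b_pos hT.law).1
    have ha := (c_bounds b a c hT.b_pos hT.a_pos (by rw [hT.law]; ring)).1
    simp only [Set.mem_prod, Set.mem_Iio]
    omega
  · intro u v hu huv hfin
    obtain ⟨K, hK⟩ : ∃ K : ℕ, ∀ p ∈ {p : ℕ × ℕ × ℕ | IsTile p.1 p.2.1 p.2.2 ∧
        u < (p.2.1 : ℝ) / p.1 ∧ (p.2.1 : ℝ) / p.1 < v ∧ Exceeds p.1 p.2.1 p.2.2}, p.2.2 ≤ K := by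
      obtain ⟨K, hK⟩ := (hfin.image (fun p => p.2.2)).bddAbove
      exact ⟨K, fun p hp => hK (mem_image_of_mem _ hp)⟩
    obtain ⟨a, b, c, h1, h2, h3, h4, h5⟩ := many_exceed u v hu huv (K + 1)
    have := hK (a, b, c) ⟨h1, h2, h3, h5⟩
    simp only at this
    omega

end Pool.Agent.Results.MP_d0305a_co.AlmostAllTiles
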